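import Pool.Agent.H50.ODG.Targets

/-!
# Two-orbit polyhedra with odd vertex degrees in hyperbolic 3-space: the theorem from the modules
-/

set_option autoImplicit false

namespace Pool.Agent.H50.ODG

open Pool.Agent.H57.CP Pool.Agent.H39.TO Pool.Agent.H39.OD

theorem pf_MND (hSF1 : T_SF1) (hNC2 : T_NC2) (hPO1 : T_PO1) (hCG1 : T_CG1) (hUNQ : T_UNQ) (hSME : T_SME)
    (hGEL : T_GEL) : T_MND := by
  refine ⟨fun K => ⟨fun h => hNC2 K ((hSF1 K).1 h), ?_⟩, ?_⟩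
  · rintro ⟨u, v, w, α, β, hp, hc⟩
    exact hCG1 _ K ((hSF1 _).2 (hPO1 u v w α β hp)) hc
  · intro u v w α β u' v' w' α' β' hp hp'
    exact ⟨hUNQ u v w α β u' v' w' α' β' hp hp',
      hSME u v w α β u' v' w' α' β' (hGEL u v w α β hp).2.2.2.2.2.2⟩

end Pool.Agent.H50.ODG
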