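import Pool.Agent.H50.ODG.Targets

set_option autoImplicit false

namespace Pool.Agent.H50.ODG

open Pool.Agent.H57.CP Pool.Agent.H39.TO Pool.Agent.H39.OD

theorem pf_SQ1 (hEXT : T_EXT) (_hSPN : T_SPN) (hFX3 : T_FX3) : T_SQ1 := by
  intro g x y z hg hx hy hz hli
  obtain ⟨G, hL, hE⟩ := hEXT g hg
  have hGG : ∀ v : H3, (G ∘ₗ G) v.1 = (g (g v)).1 := by
    intro v
    rw [LinearMap.comp_apply, hE v, hE (g v)]
  have hL2 : Lor (G ∘ₗ G) := by
    refine ⟨fun a b => ?_, fun a => ?_⟩
    · rw [LinearMap.comp_apply, LinearMap.comp_apply, hL.1, hL.1]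
    · rw [hGG a]
      exact (g (g a)).2.2
  rcases hFX3 (G ∘ₗ G) x y z hL2 (by rw [hGG, hx]) (by rw [hGG, hy]) (by rw [hGG, hz]) hli with
    h | ⟨n, -, hdet, -⟩
  · apply Equiv.ext
    intro v
    apply Subtype.ext
    have := h v.1
    rw [hGG] at this
    exact this
  · exfalso
    rw [LinearMap.det_comp] at hdet
    nlinarith [mul_self_nonneg (LinearMap.det G)]

theorem two_ne (x y : H3) (s : ℝ) (h : y.1 = s • x.1) : y = x := by
  have h1 : mk y.1 y.1 = s ^ 2 * mk x.1 x.1 := by
    rw [h]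
    simp only [mk, Pi.smul_apply, smul_eq_mul]
    ring
  rw [y.2.1, x.2.1] at h1
  have h3 : y.1 3 = s * x.1 3 := by rw [h]; simp
  have hs : 0 < s := by
    by_contra hc
    have := y.2.2
    rw [h3] at this
    nlinarith [x.2.2]
  have : s = 1 := by nlinarith
  apply Subtype.ext
  rw [h, this, one_smul]

theorem pf_DM3 (hEXT : T_EXT) (hCTR : T_CTR) : T_DM3 := by
  intro x y D q hD hx hq ho
  obtain ⟨G, hL, hE⟩ := hEXT D hD
  have hyD : D y ≠ y := by
    intro h
    have := (ho 1).1 (by simpa using h)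
    have := Nat.le_of_dvd one_pos this
    omega
  have hyDD : D (D y) ≠ y := by
    intro h
    have := (ho 2).1 (by simpa [pow_two] using h)
    have := Nat.le_of_dvd two_pos this
    omega
  have hxy : x ≠ y := by
    intro h
    exact hyD (by rw [← h]; exact hx)
  have hGx : G x.1 = x.1 := by rw [hE, hx]
  have hGy : G y.1 = (D y).1 := hE y
  have hL1 : mk x.1 (D y).1 = mk x.1 y.1 := by
    rw [← hGy]
    nth_rewrite 1 [← hGx]
    exact hL.1 _ _
  have hlt : 1 < mk x.1 y.1 := by
    rcases lt_or_eq_of_le (hCTR x y y).1 with h | h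
    · exact h
    · exact absurd ((hCTR x y y).2.1 h.symm) hxy
  rw [Fintype.linearIndependent_iff]
  intro c hc
  have hc' : c 0 • x.1 + c 1 • y.1 + c 2 • (D y).1 = 0 := by
    simpa [Fin.sum_univ_three] using hc
  set z := D y with hz
  have e1 : c 0 + c 1 * mk x.1 y.1 + c 2 * mk x.1 y.1 = 0 := by
    have h := congrArg (fun v => mk x.1 v) hc'
    have h0 : mk x.1 (c 0 • x.1 + c 1 • y.1 + c 2 • z.1) =
        c 0 * mk x.1 x.1 + c 1 * mk x.1 y.1 + c 2 * mk x.1 z.1 := by
      simp only [mk, Pi.add_apply, Pi.smul_apply, smul_eq_mul]; ring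
    have h1 : mk x.1 (0 : V4) = 0 := by simp [mk]
    simp only [h0, h1, x.2.1, hL1] at h
    linarith
  have e2 : c 0 * mk x.1 y.1 + c 1 + c 2 * mk y.1 z.1 = 0 := by
    have h := congrArg (fun v => mk y.1 v) hc'
    have h0 : mk y.1 (c 0 • x.1 + c 1 • y.1 + c 2 • z.1) =
        c 0 * mk x.1 y.1 + c 1 * mk y.1 y.1 + c 2 * mk y.1 z.1 := by
      simp only [mk, Pi.add_apply, Pi.smul_apply, smul_eq_mul]; ring
    have h1 : mk y.1 (0 : V4) = 0 := by simp [mk]
    simp only [h0, h1, y.2.1] at h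
    linarith
  have e3 : c 0 * mk x.1 y.1 + c 1 * mk y.1 z.1 + c 2 = 0 := by
    have h := congrArg (fun v => mk z.1 v) hc'
    have h0 : mk z.1 (c 0 • x.1 + c 1 • y.1 + c 2 • z.1) =
        c 0 * mk x.1 z.1 + c 1 * mk y.1 z.1 + c 2 * mk z.1 z.1 := by
      simp only [mk, Pi.add_apply, Pi.smul_apply, smul_eq_mul]; ring
    have h1 : mk z.1 (0 : V4) = 0 := by simp [mk]
    simp only [h0, h1, z.2.1, hL1] at h
    linarith
  have hyz : 1 < mk y.1 z.1 := by
    rcases lt_or_eq_of_le (hCTR y z z).1 with h | h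
    · exact h
    · exact absurd ((hCTR y z z).2.1 h.symm).symm hyD
  -- e2 - e3: (c1 - c2)(1 - mk y z) = 0
  have e4 : c 1 = c 2 := by
    have : (c 1 - c 2) * (1 - mk y.1 z.1) = 0 := by linear_combination e2 - e3
    rcases mul_eq_zero.1 this with h | h
    · linarith
    · exfalso; linarith
  by_cases h1 : c 1 = 0
  · have h2 : c 2 = 0 := by rw [← e4]; exact h1
    have h0 : c 0 = 0 := by
      rw [h1, h2] at e1
      linarith
    intro i
    fin_cases i
    · exact h0
    · exact h1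
    · exact h2
  · exfalso
    -- z = 2 L x - y
    have hz' : z.1 = (2 * mk x.1 y.1) • x.1 - y.1 := by
      have h0 : c 0 = -2 * c 1 * mk x.1 y.1 := by rw [← e4] at e1; linarith
      rw [← e4, h0] at hc'
      ext i
      have := congrFun hc' i
      simp only [Pi.add_apply, Pi.smul_apply, smul_eq_mul, Pi.zero_apply] at this
      simp only [Pi.sub_apply, Pi.smul_apply, smul_eq_mul]
      have h4 : c 1 * (z.1 i - (2 * mk x.1 y.1 * x.1 i - y.1 i)) = 0 := by linear_combination this
      rcases mul_eq_zero.1 h4 with h | h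
      · exact absurd h h1
      · linarith
    apply hyDD
    apply Subtype.ext
    have : (D z).1 = G z.1 := (hE z).symm
    rw [this, hz', map_sub, map_smul, hGx, hGy, hz']
    ext i
    simp
end Pool.Agent.H50.ODG
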