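import Pool.Agent.H50.ODG.Targets

set_option autoImplicit false

namespace Pool.Agent.H50.ODG

open Pool.Agent.H57.CP Pool.Agent.H39.TO Pool.Agent.H39.OD

theorem sn_pos {u : ℚ} (h0 : 0 < u) (h1 : u < 1) : 0 < sn u := by
  unfold sn
  have h0' : (0 : ℝ) < u := by exact_mod_cast h0
  have h1' : (u : ℝ) < 1 := by exact_mod_cast h1
  apply Real.sin_pos_of_pos_of_lt_pi
  · positivity
  · nlinarith [Real.pi_pos]

theorem cc_eq (u v w : ℚ) (α β : ℝ) (ha : 0 < Real.sin α) (hb : 0 < Real.sin β) :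
    Real.cos α * Real.cos β = eL u v w α β * (Real.sin α * Real.sin β) - kap u v w := by
  unfold eL
  field_simp
  ring

theorem pf_UNQ (hUNA : T_UNA) (hUNB : T_UNB) (hUNC : T_UNC) (hPAS : T_PAS) (hGEL : T_GEL) (hMDQ : T_MDQ) :
    T_UNQ := by
  intro u v w α β u' v' w' α' β' hp hp' hc
  obtain ⟨hu0, hu1, hv0, hv1, hw0, hw1, hL⟩ := hGEL _ _ _ _ _ hp
  obtain ⟨hu0', hu1', hv0', hv1', hw0', hw1', hL'⟩ := hGEL _ _ _ _ _ hp'
  obtain ⟨C, hch, hS, hb, ha, -⟩ := hMDQ u v w α β hu0 hu1 hv0 hv1 hp.a0 hp.a1 hp.b0 hp.b1 hL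
  obtain ⟨C', hch', hS', hb', ha', -⟩ := hMDQ u' v' w' α' β' hu0' hu1' hv0' hv1' hp'.a0 hp'.a1 hp'.b0 hp'.b1 hL'
  have sa := Real.sin_pos_of_pos_of_lt_pi hp.a0 hp.a1
  have sb := Real.sin_pos_of_pos_of_lt_pi hp.b0 hp.b1
  have sa' := Real.sin_pos_of_pos_of_lt_pi hp'.a0 hp'.a1
  have sb' := Real.sin_pos_of_pos_of_lt_pi hp'.b0 hp'.b1
  have su := sn_pos hu0 hu1
  have sv := sn_pos hv0 hv1
  rcases hUNA _ _ _ _ _ _ _ _ _ _ _ _ _ _ _ _ C C' (hPAS _ _ _ _ _ hp) (hPAS _ _ _ _ _ hp') hc with N | N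
  · obtain ⟨e1, e2, e3⟩ := hUNB u v w u' v' w' hu0 hv0 hw0 hp.sum hu0' hv0' hw0' hp'.sum N.eu N.ev N.ew N.uv
    subst e1 e2 e3
    have hl : eL u' v' w' α β = eL u' v' w' α' β' := by rw [← hch, ← hch']; exact N.l
    have hs : eS u' v' w' α β = eS u' v' w' α' β' := by unfold eS; rw [hl]
    have Na := N.a
    have Nb := N.b
    rw [ha, ha', ← hs] at Na
    rw [hb, hb', ← hs] at Nb
    have e4 : Real.sin α = Real.sin α' := by
      have h : (sn u' * eS u' v' w' α β) * (Real.sin α - Real.sin α') = 0 := by linear_combination -Na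
      rcases mul_eq_zero.1 h with h | h
      · exfalso; have := mul_pos su hS; linarith
      · linarith
    have e5 : Real.sin β = Real.sin β' := by
      have h : (sn v' * eS u' v' w' α β) * (Real.sin β - Real.sin β') = 0 := by linear_combination -Nb
      rcases mul_eq_zero.1 h with h | h
      · exfalso; have := mul_pos sv hS; linarith
      · linarith
    have e6 : Real.cos α * Real.cos β = Real.cos α' * Real.cos β' := by
      rw [cc_eq u' v' w' α β sa sb, cc_eq u' v' w' α' β' sa' sb', hl, e4, e5]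
    exact Or.inl ⟨rfl, rfl, rfl, hUNC α β α' β' hp.a0 hp.a1 hp.b0 hp.b1 hp'.a0 hp'.a1 hp'.b0 hp'.b1 e4 e5 e6⟩
  · obtain ⟨e1, e2, e3⟩ := hUNB u v w v' u' w' hu0 hv0 hw0 hp.sum hv0' hu0' hw0' (by linarith [hp'.sum])
      N.eu N.ev N.ew N.uv
    subst e1 e2 e3
    have hl : eL v' u' w' α β = eL u' v' w' α' β' := by
      rw [← hch, ← hch']
      have h := N.l
      have h2 : ch (x1 u' v' w' α' β') o = ch o (x1 u' v' w' α' β') := by
        simp only [ch, mk]; ring
      rw [h2] at h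
      exact h
    have hs : eS v' u' w' α β = eS u' v' w' α' β' := by unfold eS; rw [hl]
    have Na := N.a
    have Nb := N.b
    rw [ha, hb', ← hs] at Na
    rw [hb, ha', ← hs] at Nb
    have e4 : Real.sin α = Real.sin β' := by
      have h : (sn v' * eS v' u' w' α β) * (Real.sin α - Real.sin β') = 0 := by linear_combination -Na
      rcases mul_eq_zero.1 h with h | h
      · exfalso; have := mul_pos su hS; linarith
      · linarith
    have e5 : Real.sin β = Real.sin α' := by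
      have h : (sn u' * eS v' u' w' α β) * (Real.sin β - Real.sin α') = 0 := by linear_combination -Nb
      rcases mul_eq_zero.1 h with h | h
      · exfalso; have := mul_pos sv hS; linarith
      · linarith
    have hk : kap v' u' w' = kap u' v' w' := by unfold kap; ring
    have e6 : Real.cos α * Real.cos β = Real.cos β' * Real.cos α' := by
      rw [cc_eq v' u' w' α β sa sb, mul_comm (Real.cos β'), cc_eq u' v' w' α' β' sa' sb', hl, e4, e5, hk]
      ring
    refine Or.inr ⟨rfl, rfl, rfl, ?_⟩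
    rcases hUNC α β β' α' hp.a0 hp.a1 hp.b0 hp.b1 hp'.b0 hp'.b1 hp'.a0 hp'.a1 e4 e5 e6 with h | h
    · exact Or.inl ⟨h.2, h.1⟩
    · exact Or.inr ⟨h.2, h.1⟩

end Pool.Agent.H50.ODG
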