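import Pool.Agent.H10.ODG.KS4
import Pool.Agent.H10.ODG.VSA
import Pool.Agent.H11.ODG.FM2
import Pool.Agent.H11.ODG.OR3
import Pool.Agent.H13.ODG.PTW
import Pool.Agent.H16.ODG.MIM
import Pool.Agent.H16.ODG.VIN
import Pool.Agent.H17.ODG.ISO
import Pool.Agent.H17.ODG.VSR
import Pool.Agent.H19.ODG.CG1
import Pool.Agent.H19.ODG.CHA
import Pool.Agent.H19.ODG.CJA
import Pool.Agent.H19.ODG.KSY
import Pool.Agent.H19.ODG.LIP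
import Pool.Agent.H19.ODG.PO1
import Pool.Agent.H19.ODG.SF1
import Pool.Agent.H19.ODG.TRI
import Pool.Agent.H19.ODG.UNC
import Pool.Agent.H20.ODG.MDR
import Pool.Agent.H20.ODG.ODN
import Pool.Agent.H21.ODG.GEL
import Pool.Agent.H21.ODG.STM
import Pool.Agent.H21.ODG.XC2
import Pool.Agent.H25.ODG.ORA
import Pool.Agent.H25.ODG.SGN
import Pool.Agent.H29.ODG.KNP
import Pool.Agent.H29.ODG.XA6
import Pool.Agent.H35.ODG.EXE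
import Pool.Agent.H35.ODG.KS2
import Pool.Agent.H36.ODG.CL1
import Pool.Agent.H36.ODG.FXM
import Pool.Agent.H36.ODG.HT3
import Pool.Agent.H36.ODG.NSP
import Pool.Agent.H38.ODG.KNS
import Pool.Agent.H38.ODG.NC2
import Pool.Agent.H39.ODG.IV2
import Pool.Agent.H39.ODG.NO0
import Pool.Agent.H41.ODG.PAS
import Pool.Agent.H41.ODG.XF2
import Pool.Agent.H41.ODG.XF3
import Pool.Agent.H41.ODG.XVS
import Pool.Agent.H42.ODG.LNE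
import Pool.Agent.H43.ODG.COP
import Pool.Agent.H43.ODG.CRF
import Pool.Agent.H46.ODG.FRM
import Pool.Agent.H49.ODG.EXA
import Pool.Agent.H49.ODG.P12
import Pool.Agent.H49.ODG.XC3
import Pool.Agent.H5.ODG.KNV
import Pool.Agent.H5.ODG.SYW
import Pool.Agent.H5.ODG.UNA
import Pool.Agent.H50.ODG.MND
import Pool.Agent.H50.ODG.SQD
import Pool.Agent.H50.ODG.UNQ
import Pool.Agent.H52.ODG.D0Y
import Pool.Agent.H52.ODG.EXF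
import Pool.Agent.H53.ODG.FX3
import Pool.Agent.H54.ODG.KS3
import Pool.Agent.H54.ODG.NC1
import Pool.Agent.H55.ODG.CGF
import Pool.Agent.H57.ODG.KN3
import Pool.Agent.H57.ODG.SWM
import Pool.Agent.H57.ODG.YK
import Pool.Agent.H60.ODG.FMB
import Pool.Agent.H60.ODG.KN7
import Pool.Agent.H60.ODG.MDQ
import Pool.Agent.H64.ODG.CJR
import Pool.Agent.H64.ODG.KAP
import Pool.Agent.H65.ODG.D0R
import Pool.Agent.H65.ODG.FXP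
import Pool.Agent.H67.ODG.GGL
import Pool.Agent.H67.ODG.MTA
import Pool.Agent.H67.ODG.MTY
import Pool.Agent.H68.ODG.CRD
import Pool.Agent.H68.ODG.CRN
import Pool.Agent.H72.ODG.K12
import Pool.Agent.H72.ODG.R12
import Pool.Agent.H80.ODG.XA4
import Pool.Agent.H85.ODG.D0D
import Pool.Agent.H85.ODG.D12A
import Pool.Agent.H86.ODG.SME
import Pool.Agent.H86.ODG.XF1
import Pool.Agent.H86.ODG.XST
import Pool.Agent.H88.ODG.MTS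
import Pool.Agent.H88.ODG.UNB
import Pool.Agent.H89.ODG.KSW
import Pool.Agent.H89.ODG.NR3
import Pool.Agent.H90.ODG.KN2
import Pool.Agent.H90.ODG.KNL
import Pool.Agent.H90.ODG.KNT
import Pool.Agent.H90.ODG.KS5
import Pool.Agent.H91.ODG.AEG
import Pool.Agent.H91.ODG.C7
import Pool.Agent.H91.ODG.CFI
import Pool.Agent.H94.ODG.CHV
import Pool.Agent.H94.ODG.XL1
import Pool.Agent.H97.ODG.SYC
import Pool.Agent.H39.ODP.All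
import Pool.Agent.H99.OD.WIT
import Pool.Agent.H57.CP.Final

/-!
# Two-orbit polyhedra with odd vertex degrees in hyperbolic 3-space: composition of the modules
-/

set_option autoImplicit false

namespace Pool.Agent.H50.ODG.All

open Pool.Agent.H57.CP Pool.Agent.H57.CP.Final Pool.Agent.H39.TO Pool.Agent.H39.OD Pool.Agent.H50.ODG

theorem qD0D : T_D0D := Pool.Agent.H85.ODG.pf_D0D Pool.Agent.H57.CP.Final.tSYG Pool.Agent.H57.CP.Final.tFLA Pool.Agent.H57.CP.Final.tFLB Pool.Agent.H57.CP.Final.tFLC Pool.Agent.H57.CP.Final.tFLD Pool.Agent.H39.TOH.Final.tEQV Pool.Agent.H39.TOH.Final.tCYF Pool.Agent.H39.TOH.Final.tCYV Pool.Agent.H39.TOH.Final.tSML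
theorem qDM3 : T_DM3 := Pool.Agent.H50.ODG.pf_DM3 Pool.Agent.H57.CP.Final.tEXT Pool.Agent.H57.CP.Final.tCTR
theorem qFX3 : T_FX3 := Pool.Agent.H53.ODG.pf_FX3 Pool.Agent.H57.CP.Final.tLOR
theorem qSQ1 : T_SQ1 := Pool.Agent.H50.ODG.pf_SQ1 Pool.Agent.H57.CP.Final.tEXT Pool.Agent.H57.CP.Final.tSPN qFX3
theorem qFXP : T_FXP := Pool.Agent.H65.ODG.pf_FXP Pool.Agent.H57.CP.Final.tEXT Pool.Agent.H57.CP.Final.tCTR
theorem qCOP : T_COP := Pool.Agent.H43.ODG.pf_COP qFX3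
theorem qD0R : T_D0R := Pool.Agent.H65.ODG.pf_D0R Pool.Agent.H57.CP.Final.tSYG Pool.Agent.H57.CP.Final.tFLB
theorem qD0Y : T_D0Y := Pool.Agent.H52.ODG.pf_D0Y Pool.Agent.H57.CP.Final.tSYG
theorem qNO0 : T_NO0 := Pool.Agent.H39.ODG.pf_NO0 qD0D qDM3 qSQ1 qFXP qCOP qD0R qD0Y Pool.Agent.H39.TOH.Final.tPLN Pool.Agent.H1.TOH.Inv.pf_INV Pool.Agent.H57.CP.Final.tEXT Pool.Agent.H57.CP.Final.tSPN Pool.Agent.H39.ODP.Final.tRFX Pool.Agent.H39.TOH.Final.tSML Pool.Agent.H57.CP.Final.tLOR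
theorem qCL1 : T_CL1 := Pool.Agent.H36.ODG.pf_CL1 Pool.Agent.H39.TOH.Final.tCLS Pool.Agent.H39.TOH.Final.tPAR2 Pool.Agent.H39.TOH.Final.tSIN Pool.Agent.H42.TOH.pf_OOO Pool.Agent.H57.CP.Final.tNEC qNO0 Pool.Agent.H39.TOH.Final.tSML Pool.Agent.H57.CP.Final.tFLA
theorem qFMB : T_FMB := Pool.Agent.H60.ODG.pf_FMB 
theorem qGEL : T_GEL := Pool.Agent.H21.ODG.pf_GEL qFMB
theorem qFXM : T_FXM := Pool.Agent.H36.ODG.pf_FXM qFXP Pool.Agent.H39.ODP.Final.tRFX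
theorem qGGL : T_GGL := Pool.Agent.H67.ODG.pf_GGL Pool.Agent.H39.ODP.Final.tRFX
theorem qIV2 : T_IV2 := Pool.Agent.H39.ODG.pf_IV2 
theorem qP12 : T_P12 := Pool.Agent.H49.ODG.P12.pf_P12 Pool.Agent.H42.TOH.pf_SPV Pool.Agent.H39.TOH.Final.tBAL Pool.Agent.H57.CP.Final.tMKI Pool.Agent.H57.CP.Final.tLOR Pool.Agent.H57.CP.Final.tEXT Pool.Agent.H57.CP.Final.tSPN Pool.Agent.H39.TOH.Final.tPRP Pool.Agent.H57.CP.Final.tCTR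
theorem qK12 : T_K12 := Pool.Agent.H72.ODG.pf_K12 Pool.Agent.H39.ODP.Final.tRFX Pool.Agent.H57.CP.Final.tSYG
theorem qHT3 : T_HT3 := Pool.Agent.H36.ODG.pf_HT3 
theorem qCJR : T_CJR := Pool.Agent.H64.ODG.pf_CJR 
theorem qCRF : T_CRF := Pool.Agent.H43.ODG.pf_CRF qIV2 qHT3 qCJR qSQ1 qDM3 qFXP Pool.Agent.H57.CP.Final.tEXT Pool.Agent.H57.CP.Final.tSPN Pool.Agent.H57.CP.Final.tLOR
theorem qR12 : T_R12 := Pool.Agent.H72.ODG.pf_R12 qCRF qCJR Pool.Agent.H57.CP.Final.tEXT Pool.Agent.H57.CP.Final.tSPN Pool.Agent.H57.CP.Final.tMKI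
theorem qCHV : T_CHV := Pool.Agent.H94.ODG.CHV.pf_CHV Pool.Agent.H39.TOH.Final.tREP Pool.Agent.H39.TOH.Final.tSGE Pool.Agent.H39.TOH.Final.tCHM Pool.Agent.H39.TOH.Final.tDSW Pool.Agent.H39.TOH.Final.tDIF
theorem qNR3 : T_NR3 := Pool.Agent.H89.ODG.pf_NR3 
theorem qLIP : T_LIP := Pool.Agent.H19.ODG.pf_LIP 
theorem qCFI : T_CFI := Pool.Agent.H91.ODG.pf_CFI qLIP
theorem qVSR : T_VSR := Pool.Agent.H17.ODG.pf_VSR Pool.Agent.H57.CP.Final.tLOR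
theorem qXC3 : T_XC3 := Pool.Agent.H49.ODG.pf_XC3 qCHV qNR3 qCFI qVSR qLIP Pool.Agent.H57.CP.Final.tLOR Pool.Agent.H57.CP.Final.tMKI
theorem qKNL : T_KNL := Pool.Agent.H90.ODG.pf_KNL 
theorem qCRD : T_CRD := Pool.Agent.H68.ODG.pf_CRD 
theorem qKNT : T_KNT := Pool.Agent.H90.ODG.pf_KNT 
theorem qMTS : T_MTS := Pool.Agent.H88.ODG.pf_MTS Pool.Agent.H13.TOH.pf_DPT
theorem qMTY : T_MTY := Pool.Agent.H67.ODG.pf_MTY 
theorem qKNV : T_KNV := Pool.Agent.H5.ODG.pf_KNV qKNL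
theorem qKN3 : T_KN3 := Pool.Agent.H57.ODG.pf_KN3 
theorem qKN7 : T_KN7 := Pool.Agent.H60.ODG.pf_KN7 
theorem qTRI : T_TRI := Pool.Agent.H19.ODG.pf_TRI 
theorem qMTA : T_MTA := Pool.Agent.H67.ODG.pf_MTA Pool.Agent.H39.TOH.Final.tANG
theorem qLNE : T_LNE := Pool.Agent.H42.ODG.pf_LNE 
theorem qCRN : T_CRN := Pool.Agent.H68.ODG.pf_CRN Pool.Agent.H39.TOH.OPP.pf
theorem qKN2 : T_KN2 := Pool.Agent.H90.ODG.pf_KN2 
theorem qKNS : T_KNS := Pool.Agent.H38.ODG.pf_KNS 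
theorem qKS5 : T_KS5 := Pool.Agent.H90.ODG.pf_KS5 qKN7 qKNS qKNL
theorem qKAP : T_KAP := Pool.Agent.H64.ODG.pf_KAP 
theorem qKS2 : T_KS2 := Pool.Agent.H35.ODG.pf_KS2 qKN2 qKNS qKNL
theorem qKS3 : T_KS3 := Pool.Agent.H54.ODG.pf_KS3 qKN3 qKNS qKNL
theorem qKS4 : T_KS4 := Pool.Agent.H10.ODG.pf_KS4 qKN3 qKNT qKNS qKNL
theorem qKNP : T_KNP := Pool.Agent.H29.ODG.pf_KNP qMTY qMTA qMTS qCRN qCRD qKAP qTRI qKNV qKNS qKS2 qKS3 qKS4 qKS5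
theorem qNSK : T_NSK := Pool.Agent.H42.ODG.pf_NSK 
theorem qOR3 : T_OR3 := Pool.Agent.H11.ODG.pf_OR3 Pool.Agent.H39.TOH.Final.tORR
theorem qSYC : T_SYC := Pool.Agent.H97.ODG.pf_SYC 
theorem qFRM : T_FRM := Pool.Agent.H46.ODG.pf_FRM Pool.Agent.H57.CP.Final.tMKI Pool.Agent.H57.CP.Final.tLOR Pool.Agent.H57.CP.Final.tCTR
theorem qMDR : T_MDR := Pool.Agent.H20.ODG.pf_MDR qFRM qCFI Pool.Agent.H57.CP.Final.tLOR
theorem qSYW : T_SYW := Pool.Agent.H5.ODG.pf_SYW 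
theorem qKSY : T_KSY := Pool.Agent.H19.ODG.pf_KSY 
theorem qMDQ : T_MDQ := Pool.Agent.H60.ODG.pf_MDQ Pool.Agent.H57.CP.Final.tLOR
theorem qYK : T_YK := Pool.Agent.H57.ODG.pf_YK Pool.Agent.H57.CP.Final.tLOR
theorem qSTM : T_STM := Pool.Agent.H21.ODG.pf_STM Pool.Agent.H13.TOH.pf_DPT qYK
theorem qMIM : T_MIM := Pool.Agent.H16.ODG.pf_MIM Pool.Agent.H57.CP.Final.tMKI
theorem qSWM : T_SWM := Pool.Agent.H57.ODG.pf_SWM Pool.Agent.H57.CP.Final.tMKI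
theorem qCJA : T_CJA := Pool.Agent.H19.ODG.pf_CJA Pool.Agent.H39.ODP.Final.tRFX Pool.Agent.H57.CP.Final.tSPN
theorem qKSW : T_KSW := Pool.Agent.H89.ODG.pf_KSW 
theorem qSME : T_SME := Pool.Agent.H86.ODG.pf_SME qMIM qSWM qCJA qKSW Pool.Agent.H39.ODP.Final.tRFX
theorem qISO : T_ISO := Pool.Agent.H17.ODG.pf_ISO qLNE Pool.Agent.H57.CP.Final.tLOR Pool.Agent.H57.CP.Final.tMKI
theorem qEXE : T_EXE := Pool.Agent.H35.ODG.pf_EXE qSTM qISO Pool.Agent.H57.CP.Final.tLOR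
theorem qFM2 : T_FM2 := Pool.Agent.H11.ODG.pf_FM2 qMIM qSWM qCJA qKSW qSYW Pool.Agent.H39.ODP.Final.tRFX
theorem qXL1 : T_XL1 := Pool.Agent.H94.ODG.XL1.pf_XL1 qCHV qNR3 qCFI
theorem qC7 : T_C7 := Pool.Agent.H91.ODG.pf_C7 
theorem qXVS : T_XVS := Pool.Agent.H41.ODG.pf_XVS qVSR Pool.Agent.H57.CP.Final.tLOR
theorem qXC2 : T_XC2 := Pool.Agent.H21.ODG.pf_XC2 qCHV qNR3 qCFI qVSR qLIP Pool.Agent.H57.CP.Final.tLOR Pool.Agent.H57.CP.Final.tMKI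
theorem qNSP : T_NSP := Pool.Agent.H36.ODG.pf_NSP qGGL
theorem qXST : T_XST := Pool.Agent.H86.ODG.pf_XST qVSR
theorem qXF2 : T_XF2 := Pool.Agent.H41.ODG.pf_XF2 qSTM qXST qXC2
theorem qXA4 : T_XA4 := Pool.Agent.H80.ODG.pf_XA4 qCHV qNR3 qVSR qLIP Pool.Agent.H57.CP.Final.tLOR Pool.Agent.H57.CP.Final.tMKI qYK
theorem qXA6 : T_XA6 := Pool.Agent.H29.ODG.X.pf_XA6 qXA4 qC7 qVSR Pool.Agent.H57.CP.Final.tLOR Pool.Agent.H57.CP.Final.tMKI qCFI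
theorem qXF1 : T_XF1 := Pool.Agent.H86.ODG.pf_XF1 qSTM qXST qXL1
theorem qXF3 : T_XF3 := Pool.Agent.H41.ODG.pf_XF3 qSTM qXST qXF2 qXVS qCFI
theorem qXF4 : T_XF4 := Pool.Agent.H86.ODG.pf_XF4 qSTM qXST qXA4 qXC3 qXVS qCFI qC7
theorem qEXA : T_EXA := Pool.Agent.H49.ODG.pf_EXA qXL1 qXC2 qXC3 qXA4 qXA6 qXF1 qXF2 qXF3 qXF4
theorem qVSA : T_VSA := Pool.Agent.H10.ODG.pf_VSA qGGL Pool.Agent.H39.ODP.Final.tRFX Pool.Agent.H65.TOH.pf_LII qCFI Pool.Agent.H57.CP.Final.tSPN Pool.Agent.H57.CP.Final.tLOR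
theorem qPAS : T_PAS := Pool.Agent.H41.ODG.pf_PAS qGEL qMDQ qFMB qEXA qVSA
theorem qAEG : T_AEG := Pool.Agent.H91.ODG.pf_AEG Pool.Agent.H5.TOH.pf_AEA Pool.Agent.H5.TOH.pf_AEB Pool.Agent.H5.TOH.pf_AEC Pool.Agent.H5.TOH.pf_AED Pool.Agent.H57.CP.Final.tFLD Pool.Agent.H57.CP.Final.tFLA Pool.Agent.H57.CP.Final.tFLB Pool.Agent.H57.CP.Final.tSYG Pool.Agent.H39.TOH.Final.tEQV
theorem qCHA : T_CHA := Pool.Agent.H19.ODG.pf_CHA Pool.Agent.H39.ODP.Final.tRFX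
theorem qPTW : T_PTW := Pool.Agent.H13.ODG.pf_PTW qPAS qGEL qMDQ qFMB qAEG qCHA
theorem qORA : T_ORA := Pool.Agent.H25.ODG.pf_ORA Pool.Agent.H5.TOH.pf_AEE qOR3 qGGL Pool.Agent.H57.CP.Final.tSPN Pool.Agent.H39.ODP.Final.tRFX
theorem qVIN : T_VIN := Pool.Agent.H16.ODG.pf_VIN Pool.Agent.H39.ODP.Final.tRFX Pool.Agent.H57.CP.Final.tCTR
theorem qPO1 : T_PO1 := Pool.Agent.H19.ODG.pf_PO1 qPAS qPTW Pool.Agent.H5.TOH.pf_AEB qORA qGEL qMDQ qFMB qNSK qVIN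
theorem qD12A : T_D12A := Pool.Agent.H85.ODG.pf_D12A Pool.Agent.H57.CP.Final.tSYG Pool.Agent.H57.CP.Final.tFLA Pool.Agent.H57.CP.Final.tFLB Pool.Agent.H57.CP.Final.tFLC Pool.Agent.H57.CP.Final.tFLD Pool.Agent.H39.TOH.Final.tEQV Pool.Agent.H39.TOH.Final.tCYF Pool.Agent.H39.TOH.Final.tCYV Pool.Agent.H39.TOH.Final.tSIN
theorem qSGN : T_SGN := Pool.Agent.H25.ODG.pf_SGN 
theorem qODN : T_ODN := Pool.Agent.H20.ODG.pf_ODN 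
theorem qNC1 : T_NC1 := Pool.Agent.H54.ODG.pf_NC1 qCL1 qD12A Pool.Agent.H39.TOH.Final.tSML Pool.Agent.H39.TOH.Final.tQFI qR12 qK12 qP12 qFXM qNSP qSGN qKNP qMTA qMTY qOR3 qODN qKSW Pool.Agent.H39.ODP.Final.tRFX qKNS qCFI
theorem qEXF : T_EXF := Pool.Agent.H52.ODG.pf_EXF qSTM qISO qC7 Pool.Agent.H57.CP.Final.tLOR
theorem qNC2 : T_NC2 := Pool.Agent.H38.ODG.pf_NC2 qNC1 qMDR qCJA qMDQ qEXE qEXF qGGL qKSY qSYC qFM2 Pool.Agent.H39.ODP.Final.tRFX qFMB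
theorem qCGF : T_CGF := Pool.Agent.H55.ODG.pf_CGF Pool.Agent.H5.TOH.pf_AEA Pool.Agent.H5.TOH.pf_AEB Pool.Agent.H5.TOH.pf_AEC Pool.Agent.H5.TOH.pf_AED Pool.Agent.H57.CP.Final.tFLD Pool.Agent.H57.CP.Final.tFLA Pool.Agent.H57.CP.Final.tFLB Pool.Agent.H57.CP.Final.tSYG
theorem qSF1 : T_SF1 := Pool.Agent.H19.ODG.pf_SF1 Pool.Agent.H83.CP.la Pool.Agent.H42.TOH.pf_LBT Pool.Agent.H11.TOH.pf_LCT Pool.Agent.H83.CP.LD.ld Pool.Agent.H42.TOH.pf_LET Pool.Agent.H89.OD.pf_KOF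
theorem qCG1 : T_CG1 := Pool.Agent.H19.ODG.pf_CG1 Pool.Agent.H78.OD.pf_CNG
theorem qUNA : T_UNA := Pool.Agent.H5.ODG.pf_UNA qCGF qCHA
theorem qUNB : T_UNB := Pool.Agent.H88.ODG.pf_UNB 
theorem qUNC : T_UNC := Pool.Agent.H19.ODG.pf_UNC 
theorem qUNQ : T_UNQ := Pool.Agent.H50.ODG.pf_UNQ qUNA qUNB qUNC qPAS qGEL qMDQ
theorem qMND : T_MND := Pool.Agent.H50.ODG.pf_MND qSF1 qNC2 qPO1 qCG1 qUNQ qSME qGEL

end Pool.Agent.H50.ODG.All
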