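import Mathlib
import Pool.Agent.H57.CP.Geo
import Pool.Agent.H39.TO.Geo
import Pool.Agent.H39.OD.Defs

/-!
# Two-orbit polyhedra with odd vertex degrees in hyperbolic 3-space (MP_397744_co): definitions

`H3`, `ch`, `IsIso`, `IsPolyhedron`, `IsFaithful` are in `Pool.Agent.H57.CP.Defs`, `IsTwoOrbit` is in
`Pool.Agent.H39.TO.Defs`, `Geo`, `Kof`, `refl`, `o`, `pt` are in `Pool.Agent.H57.CP.Geo`, `KA`, `G3`, `fc` are in
`Pool.Agent.H39.TO.Geo`, `rf`, `mapG`, `Cong`, `m1` are in `Pool.Agent.H39.OD.Defs`.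
-/

set_option autoImplicit false

namespace Pool.Agent.H50.ODG

open Pool.Agent.H57.CP Pool.Agent.H39.TO Pool.Agent.H39.OD

/-- the vertices, edges and faces of an infinite two-orbit polyhedron with finite faces, all of whose vertices have
odd degree -/
def OddDeg (K : Geo) : Prop :=
  ∃ (P : Type) (_ : PartialOrder P) (_ : BoundedOrder P) (rk : P → ℤ) (β : P → H3),
    IsPolyhedron P rk ∧ IsFaithful rk β ∧ IsTwoOrbit rk β ∧
    (∀ x, rk x = 0 → ∃ n : ℕ, Odd n ∧ {e | rk e = 1 ∧ x < e}.encard = n) ∧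
    (∀ f, rk f = 2 → {x | rk x = 0 ∧ x < f}.Finite) ∧ {x | rk x = 0}.Infinite ∧ K = Kof rk β

/-- `cos (u π)` and `sin (u π)` -/
noncomputable def cn (u : ℚ) : ℝ := Real.cos (u * Real.pi)
noncomputable def sn (u : ℚ) : ℝ := Real.sin (u * Real.pi)

/-- the hyperbolic cosine `L` of the edge length: `L sin α sin β = κ + cos α cos β`, where
`κ sin (u π) sin (v π) = cos (w π) + cos (u π) cos (v π)` -/
noncomputable def kap (u v w : ℚ) : ℝ := (cn w + cn u * cn v) / (sn u * sn v)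
noncomputable def eL (u v w : ℚ) (α β : ℝ) : ℝ :=
  (kap u v w + Real.cos α * Real.cos β) / (Real.sin α * Real.sin β)
noncomputable def eS (u v w : ℚ) (α β : ℝ) : ℝ := Real.sqrt (eL u v w α β ^ 2 - 1)

/-- the second base vertex (the first one is `o`) -/
noncomputable def x1 (u v w : ℚ) (α β : ℝ) : H3 := pt 0 0 (eS u v w α β)

/-- the normals of the first two mirrors (the third one is `m1`) -/
noncomputable def na (u : ℚ) (α : ℝ) : V4 := ![-cn u, sn u * Real.cos α, sn u * Real.sin α, 0]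
noncomputable def nb (u v w : ℚ) (α β : ℝ) : V4 :=
  ![-cn v, sn v * Real.cos β, -(sn v * Real.sin β * eL u v w α β), -(sn v * Real.sin β * eS u v w α β)]

/-- the polyhedron with the base edge `{o, x1}` and the reflections in the mirrors `na` (through `o`), `nb` (through
`x1`) and `m1` (through both) -/
noncomputable def ModD (u v w : ℚ) (α β : ℝ) : Geo :=
  KA o (x1 u v w α β) (rf (na u α)) (rf (nb u v w α β)) (rf m1)

/-- the angles, families without condition on `α`, `β` -/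
def Fam0 (u v w : ℚ) : Prop :=
  (∃ q q' m : ℕ, Odd q ∧ Odd q' ∧ 3 ≤ q ∧ q < q' ∧ 2 ≤ m ∧ u = 1 / q ∧ v = 1 / q' ∧ w = 1 / m) ∨
  (∃ p c : ℕ, Odd p ∧ Odd c ∧ 3 ≤ p ∧ 3 ≤ c ∧ u = 2 / p ∧ v = 1 / c ∧ w = 1 / c) ∨
  (∃ p : ℕ, Odd p ∧ ¬ 3 ∣ p ∧ 7 ≤ p ∧
    ((u = 3 / p ∧ v = 1 / 3 ∧ w = 1 / p) ∨ (u = 1 / 3 ∧ v = 1 / p ∧ w = 3 / p))) ∨
  (u = 2 / 7 ∧ v = 1 / 3 ∧ w = 1 / 7) ∨ (u = 1 / 3 ∧ v = 1 / 7 ∧ w = 2 / 7)

/-- families with the condition `α ≠ β` -/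
def Fam1 (u v w : ℚ) : Prop :=
  (∃ p : ℕ, Odd p ∧ 7 ≤ p ∧ ((u = 2 / p ∧ v = 1 / p ∧ w = 1 / 2) ∨ (u = 4 / p ∧ v = 1 / p ∧ w = 1 / p) ∨
    (¬ 3 ∣ p ∧ u = 3 / p ∧ v = 1 / p ∧ w = 1 / 3))) ∨
  (u = 2 / 7 ∧ v = 1 / 7 ∧ w = 1 / 3)

/-- families with the conditions `α ≠ β` and `α + β ≠ π` -/
def Fam2 (u v w : ℚ) : Prop :=
  (∃ q m : ℕ, Odd q ∧ 3 ≤ q ∧ 2 ≤ m ∧ u = 1 / q ∧ v = 1 / q ∧ w = 1 / m) ∨
  (∃ q p : ℕ, Odd q ∧ Odd p ∧ 3 ≤ q ∧ 3 ≤ p ∧ u = 1 / q ∧ v = 1 / q ∧ w = 2 / p) ∨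
  (∃ p : ℕ, Odd p ∧ 7 ≤ p ∧ ((u = 1 / p ∧ v = 1 / p ∧ w = 4 / p) ∨ (u = 2 / p ∧ v = 2 / p ∧ w = 2 / p)))

/-- the parameters -/
structure Prm (u v w : ℚ) (α β : ℝ) : Prop where
  sum : u + v + w ≤ 1
  a0 : 0 < α
  a1 : α < Real.pi
  b0 : 0 < β
  b1 : β < Real.pi
  fam : Fam0 u v w ∨ (Fam1 u v w ∧ α ≠ β) ∨ (Fam2 u v w ∧ α ≠ β ∧ α + β ≠ Real.pi)

/-- parameters of congruent polyhedra -/
def Same (u v w : ℚ) (α β : ℝ) (u' v' w' : ℚ) (α' β' : ℝ) : Prop :=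
  (u' = u ∧ v' = v ∧ w' = w ∧ ((α' = α ∧ β' = β) ∨ (α' = Real.pi - α ∧ β' = Real.pi - β))) ∨
  (u' = v ∧ v' = u ∧ w' = w ∧ ((α' = β ∧ β' = α) ∨ (α' = Real.pi - β ∧ β' = Real.pi - α)))

/-- THE THEOREM: up to isometry, the infinite two-orbit polyhedra with finite faces and odd vertex degrees are exactly
the polyhedra `ModD u v w α β`; two of them are congruent only in the obvious cases -/
def MainDeg : Prop :=
  (∀ K : Geo, OddDeg K ↔ ∃ u v w α β, Prm u v w α β ∧ Cong (ModD u v w α β) K) ∧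
  ∀ u v w α β u' v' w' α' β', Prm u v w α β → Prm u' v' w' α' β' →
    (Cong (ModD u v w α β) (ModD u' v' w' α' β') ↔ Same u v w α β u' v' w' α' β')

end Pool.Agent.H50.ODG
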