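import Pool.Agent.H50.ODG.Defs
import Pool.Agent.H39.OD.Targets

/-!
# Two-orbit polyhedra with odd vertex degrees in hyperbolic 3-space: targets

One `Prop` `T_XX` per module. `Geo`, `Sy`, `Fl`, `Orb`, `Gr`, `Lor`, `Ext`, `refl`, `o`, `pt` are in
`Pool.Agent.H57.CP.Geo`, `Two`, `DG`, `FS`, `In`, `Out`, `G3`, `Gam`, `Proper`, `Nrm`, `fc`, `AStr`, `KA`, `oE` in
`Pool.Agent.H39.TO.Geo`, `rf`, `mapG`, `Cong`, `m1` in `Pool.Agent.H39.OD.Defs`, `cn`, `sn`, `kap`, `eL`, `eS`, `x1`,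
`na`, `nb`, `ModD`, `Fam0`, `Fam1`, `Fam2`, `Prm`, `Same` in `Pool.Agent.H50.ODG.Defs`.
-/

set_option autoImplicit false

namespace Pool.Agent.H50.ODG

open Pool.Agent.H57.CP Pool.Agent.H39.TO Pool.Agent.H39.OD

/-! ## Set form -/

/-- set form of `OddDeg` -/
structure Odd1 (K : Geo) : Prop where
  geo : IsGeo K
  two : Two K
  dg : ∀ n ∈ DG K, ∃ m : ℕ, Odd m ∧ n = (m : ℕ∞)
  fs : ∀ n ∈ FS K, n ≠ ⊤
  inf : K.V.Infinite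

def T_SF1 : Prop := ∀ K : Geo, OddDeg K ↔ Odd1 K

/-! ## Class {0} does not occur -/

/-- the data of a polyhedron of class `{0}` -/
structure D0 (K : Geo) (x y : H3) (f : Set (Set H3)) (D r : Equiv.Perm H3) (q m : ℕ) : Prop where
  sD : Sy K D
  sr : Sy K r
  fl : Fl K (x, {x, y}, f)
  ne : x ≠ y
  Dx : D x = x
  rx : r x = y
  ry : r y = x
  rf : (Set.image r) '' f = f
  rr : ∀ z ∈ K.V, r (r z) = z
  o1 : ∀ n : ℕ, (D ^ n) y = y ↔ q ∣ n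
  o1' : ∀ z ∈ K.V, (D ^ q) z = z
  m0 : 0 < m
  o2 : ∀ z ∈ K.V, ((r * (D * r * D⁻¹)) ^ m) z = z
  eV : K.V = Orb x D r
  eE : K.E = {e | ∃ g ∈ Gr D r, e = g '' {x, y}}
  eF : K.F = {h | ∃ g ∈ Gr D r, h = (Set.image g) '' f}
  ef : f = {e | ∃ g ∈ Subgroup.closure {r, D * r * D⁻¹}, e = g '' {x, y} ∨ e = g '' {x, D y}}
  out : ¬ ∃ g, Sy K g ∧ g x = x ∧ g y = y ∧ (Set.image g) '' f = (Set.image (D⁻¹ : Equiv.Perm H3)) '' f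

def T_D0D : Prop := ∀ (K : Geo) (p q : ℕ), IsGeo K → Two K → In K 0 → Out K 1 → Out K 2 → FS K = {(p : ℕ∞)} →
  DG K = {(q : ℕ∞)} → ∃ x y f D r, D0 K x y f D r q p

/-- three independent points -/
def T_DM3 : Prop := ∀ (x y : H3) (D : Equiv.Perm H3) (q : ℕ), IsIso D → D x = x → 3 ≤ q →
  (∀ n : ℕ, (D ^ n) y = y ↔ q ∣ n) → LinearIndependent ℝ ![x.1, y.1, (D y).1]

/-- Lorentz maps which fix three independent points -/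
def T_FX3 : Prop := ∀ (G : V4 →ₗ[ℝ] V4) (x y z : H3), Lor G → G x.1 = x.1 → G y.1 = y.1 → G z.1 = z.1 →
  LinearIndependent ℝ ![x.1, y.1, z.1] → (∀ v, G v = v) ∨ ∃ n : V4, mk n n = -1 ∧ LinearMap.det G = -1 ∧
    ∀ v, G v = refl n v

/-- an involution on three independent points is an involution -/
def T_SQ1 : Prop := ∀ (g : Equiv.Perm H3) (x y z : H3), IsIso g → g (g x) = x → g (g y) = y → g (g z) = z →
  LinearIndependent ℝ ![x.1, y.1, z.1] → g * g = 1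

/-- fixed points of maps with a finite orbit -/
def T_FXP : Prop := ∀ (g : Equiv.Perm H3) (m : ℕ) (x : H3), IsIso g → 0 < m → (g ^ m) x = x → ∃ z : H3, g z = z

/-- a reflection which fixes both axes -/
def T_COP : Prop := ∀ (D R : V4 →ₗ[ℝ] V4) (x y p : H3) (c u : V4), Lor D → Lor R → LinearMap.det D = 1 →
  (∀ v, R (R v) = v) → D x.1 = x.1 → R x.1 = y.1 → R y.1 = x.1 → D y.1 ≠ y.1 → R (D (R p.1)) = D p.1 →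
  D c = c → D u = u → 0 < mk c c → mk u u = -1 → mk c u = 0 →
  ∃ n : V4, mk n n = -1 ∧ mk n x.1 = 0 ∧ mk n y.1 = 0 ∧ mk n c = 0 ∧ mk n u = 0 ∧ (R n = n ∨ R n = -n)

/-- another generator -/
def T_D0R : Prop := ∀ (K : Geo) (x y : H3) (f : Set (Set H3)) (D r : Equiv.Perm H3) (q m : ℕ),
  D0 K x y f D r q m → D0 K x y f (D ^ (q + 1)) r q m

/-- the reflection is a symmetry -/
def T_D0Y : Prop := ∀ (K : Geo) (x y : H3) (f : Set (Set H3)) (D r s : Equiv.Perm H3) (q m : ℕ),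
  D0 K x y f D r q m → IsIso s → s * s = 1 → s x = x → s y = y → s * D = D⁻¹ * s → s * r = r * s → False

def T_NO0 : Prop := ∀ (K : Geo) (p q : ℕ), IsGeo K → Two K → In K 0 → Out K 1 → Out K 2 → FS K = {(p : ℕ∞)} →
  DG K = {(q : ℕ∞)} → Odd q → False

/-- the class -/
def T_CL1 : Prop := ∀ K : Geo, Odd1 K → Out K 0 ∧ In K 1 ∧ In K 2

/-! ## Class {1, 2}: data -/

/-- the data of a polyhedron of class `{1, 2}` -/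
structure D12 (K : Geo) (x x' : H3) (f : Set (Set H3)) (a b c : Equiv.Perm H3) (q q' m : ℕ) : Prop where
  sa : Sy K a
  sb : Sy K b
  sc : Sy K c
  fl : Fl K (x, {x, x'}, f)
  ne : x ≠ x'
  av : a x = x
  bv : b x' = x'
  cv : c x = x
  cv' : c x' = x'
  ax : a x' ≠ x'
  bx : b x ≠ x
  aa : ∀ z ∈ K.V, a (a z) = z
  bb : ∀ z ∈ K.V, b (b z) = z
  cc : ∀ z ∈ K.V, c (c z) = z
  c1 : ∃ z ∈ K.V, c z ≠ z
  o1 : ∀ n : ℕ, ((a * c) ^ n) x' = x' ↔ q ∣ n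
  o1' : ∀ z ∈ K.V, ((a * c) ^ q) z = z
  o2 : ∀ n : ℕ, ((b * c) ^ n) x = x ↔ q' ∣ n
  o2' : ∀ z ∈ K.V, ((b * c) ^ q') z = z
  m0 : 0 < m
  o3 : ∀ z ∈ K.V, ((a * b) ^ m) z = z
  nx : ¬ ∃ g, Sy K g ∧ g x = x'
  eV : K.V = {z | ∃ g ∈ G3 a b c, z = g x ∨ z = g x'}
  eE : K.E = {e | ∃ g ∈ G3 a b c, e = g '' {x, x'}}
  eF : K.F = {h | ∃ g ∈ G3 a b c, h = (Set.image g) '' f}
  ef : f = fc a b {x, x'}

def T_D12A : Prop := ∀ K : Geo, IsGeo K → Two K → Out K 0 → In K 1 → In K 2 → (∀ n ∈ DG K, n ≠ ⊤) →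
  (∀ n ∈ FS K, n ≠ ⊤) → ∃ x x' f a b c q q' m, D12 K x x' f a b c q q' m ∧ (q : ℕ∞) ∈ DG K ∧ (q' : ℕ∞) ∈ DG K

/-! ## Class {1, 2}: the generators are reflections -/

/-- involutions with two fixed points -/
def T_IV2 : Prop := ∀ (C : V4 →ₗ[ℝ] V4) (x x' : H3), Lor C → (∀ v, C (C v) = v) → x ≠ x' → C x.1 = x.1 →
  C x'.1 = x'.1 → (∃ v, C v ≠ v) → (∃ n : V4, mk n n = -1 ∧ ∀ v, C v = refl n v) ∨
    ∀ v, C v = v → ∃ s t : ℝ, v = s • x.1 + t • x'.1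

/-- three half-turns -/
def T_HT3 : Prop := ∀ (A B C : V4 →ₗ[ℝ] V4) (x x' y y' z : H3), Lor A → Lor B → Lor C → (∀ v, A (A v) = v) →
  (∀ v, B (B v) = v) → (∀ v, C (C v) = v) → A x.1 = x.1 → B x'.1 = x'.1 → C x.1 = x.1 → C x'.1 = x'.1 →
  A x'.1 ≠ x'.1 → B x.1 ≠ x.1 → (∀ v, A v = v → ∃ s t : ℝ, v = s • x.1 + t • y.1) →
  (∀ v, B v = v → ∃ s t : ℝ, v = s • x'.1 + t • y'.1) → (∀ v, C v = v → ∃ s t : ℝ, v = s • x.1 + t • x'.1) →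
  A z.1 = z.1 → B z.1 = z.1 → ∃ (n : V4) (T : Submodule ℝ V4), mk n n = -1 ∧ mk n x.1 = 0 ∧ mk n x'.1 = 0 ∧
    x.1 ∈ T ∧ x'.1 ∈ T ∧ (∀ v ∈ T, A v ∈ T) ∧ (∀ v ∈ T, B v ∈ T) ∧ (∀ v ∈ T, C v ∈ T) ∧ ∀ v ∈ T, C v = refl n v

/-- conjugate involutions -/
def T_CJR : Prop := ∀ (V : Set H3) (a c : Equiv.Perm H3) (q : ℕ), IsIso a → IsIso c → (∀ y, a y ∈ V ↔ y ∈ V) →
  (∀ y, c y ∈ V ↔ y ∈ V) → (∀ y ∈ V, a (a y) = y) → (∀ y ∈ V, c (c y) = y) → (∀ y ∈ V, ((a * c) ^ q) y = y) →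
  Odd q → ∃ h : Equiv.Perm H3, IsIso h ∧ h ∈ Subgroup.closure {a, c} ∧ (∀ y ∈ V, a y = h (c (h⁻¹ y)))

/-- `c` is a reflection on the vertices -/
def T_CRF : Prop := ∀ (K : Geo) (x x' : H3) (f : Set (Set H3)) (a b c : Equiv.Perm H3) (q q' m : ℕ), IsGeo K →
  D12 K x x' f a b c q q' m → Odd q → Odd q' → 3 ≤ q → 3 ≤ q' → ∃ n2 : V4, mk n2 n2 = -1 ∧
    ∀ z ∈ K.V, refl n2 z.1 = (c z).1

/-- all three generators -/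
def T_R12 : Prop := ∀ (K : Geo) (x x' : H3) (f : Set (Set H3)) (a b c : Equiv.Perm H3) (q q' m : ℕ), IsGeo K →
  D12 K x x' f a b c q q' m → Odd q → Odd q' → 3 ≤ q → 3 ≤ q' → ∃ n0 n1 n2 : V4, mk n0 n0 = -1 ∧ mk n1 n1 = -1 ∧
    mk n2 n2 = -1 ∧ (∀ z ∈ K.V, refl n0 z.1 = (a z).1) ∧ (∀ z ∈ K.V, refl n1 z.1 = (b z).1) ∧
    ∀ z ∈ K.V, refl n2 z.1 = (c z).1

/-- the polyhedron of the reflections -/
def T_K12 : Prop := ∀ (K : Geo) (x x' : H3) (f : Set (Set H3)) (a b c : Equiv.Perm H3) (q q' m : ℕ)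
  (n0 n1 n2 : V4), IsGeo K → D12 K x x' f a b c q q' m → mk n0 n0 = -1 → mk n1 n1 = -1 → mk n2 n2 = -1 →
  (∀ z ∈ K.V, refl n0 z.1 = (a z).1) → (∀ z ∈ K.V, refl n1 z.1 = (b z).1) → (∀ z ∈ K.V, refl n2 z.1 = (c z).1) →
  K = KA x x' (rf n0) (rf n1) (rf n2)

/-- the group is properly discontinuous, and the angles have the right denominators -/
def T_P12 : Prop := ∀ (K : Geo) (x x' : H3) (f : Set (Set H3)) (a b c : Equiv.Perm H3) (q q' m : ℕ)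
  (n0 n1 n2 : V4), IsGeo K → D12 K x x' f a b c q q' m → mk n0 n0 = -1 → mk n1 n1 = -1 → mk n2 n2 = -1 →
  (∀ z ∈ K.V, refl n0 z.1 = (a z).1) → (∀ z ∈ K.V, refl n1 z.1 = (b z).1) → (∀ z ∈ K.V, refl n2 z.1 = (c z).1) →
  Proper (Gam n0 n1 n2) ∧ (∀ k : ℕ, (refl n0 * refl n2) ^ k = 1 ↔ q ∣ k) ∧ (∀ k : ℕ, (refl n1 * refl n2) ^ k = 1 ↔ q' ∣ k)

/-- perms and linear maps -/
def T_GGL : Prop := ∀ n0 n1 n2 : V4, mk n0 n0 = -1 → mk n1 n1 = -1 → mk n2 n2 = -1 →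
  (∀ g ∈ G3 (rf n0) (rf n1) (rf n2), ∃ G ∈ Gam n0 n1 n2, Ext G g) ∧
  (∀ G ∈ Gam n0 n1 n2, ∃ g ∈ G3 (rf n0) (rf n1) (rf n2), Ext G g) ∧
  (∀ g ∈ Subgroup.closure {rf n0, rf n1}, ∃ G ∈ Submonoid.closure {refl n0, refl n1}, Ext G g) ∧
  ∀ G ∈ Submonoid.closure {(refl n0 : Module.End ℝ V4), refl n1}, ∃ g ∈ Subgroup.closure {rf n0, rf n1}, Ext G g

/-- a common point of two mirrors -/
def T_FXM : Prop := ∀ (n0 n1 : V4) (m : ℕ) (x : H3), mk n0 n0 = -1 → mk n1 n1 = -1 → 0 < m →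
  ((rf n0 * rf n1) ^ m) x = x → ∃ z : H3, mk z.1 n0 = 0 ∧ mk z.1 n1 = 0

/-- no common point of all mirrors -/
def T_NSP : Prop := ∀ (x x' : H3) (n0 n1 n2 : V4), mk n0 n0 = -1 → mk n1 n1 = -1 → mk n2 n2 = -1 →
  Proper (Gam n0 n1 n2) → (KA x x' (rf n0) (rf n1) (rf n2)).V.Infinite →
  ¬ ∃ O : H3, mk O.1 n0 = 0 ∧ mk O.1 n1 = 0 ∧ mk O.1 n2 = 0

/-! ## Triangles of mirrors -/

/-- a triangle of three mirrors of the group `G` -/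
structure MT (G : Submonoid (Module.End ℝ V4)) (x y z : V4) (P Q R : H3) : Prop where
  ux : mk x x = -1
  uy : mk y y = -1
  uz : mk z z = -1
  gx : refl x ∈ G
  gy : refl y ∈ G
  gz : refl z ∈ G
  Px : mk P.1 x = 0
  Py : mk P.1 y = 0
  Pz : mk P.1 z < 0
  Qx : mk Q.1 x = 0
  Qz : mk Q.1 z = 0
  Qy : mk Q.1 y < 0
  Ry : mk R.1 y = 0
  Rz : mk R.1 z = 0
  Rx : mk R.1 x < 0
  ns : ¬ ∃ O : H3, mk O.1 x = 0 ∧ mk O.1 y = 0 ∧ mk O.1 z = 0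

def T_MTY : Prop := ∀ G x y z P Q R, MT G x y z P Q R → MT G y x z P R Q ∧ MT G x z y Q P R

/-- choice of signs -/
def T_SGN : Prop := ∀ (x x' z : H3) (n0 n1 n2 : V4), mk n0 n0 = -1 → mk n1 n1 = -1 → mk n2 n2 = -1 →
  mk x.1 n0 = 0 → mk x.1 n2 = 0 → mk x'.1 n1 = 0 → mk x'.1 n2 = 0 → mk x.1 n1 ≠ 0 → mk x'.1 n0 ≠ 0 →
  mk z.1 n0 = 0 → mk z.1 n1 = 0 → (¬ ∃ O : H3, mk O.1 n0 = 0 ∧ mk O.1 n1 = 0 ∧ mk O.1 n2 = 0) →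
  ∃ k0 k1 k2 : V4, (k0 = n0 ∨ k0 = -n0) ∧ (k1 = n1 ∨ k1 = -n1) ∧ (k2 = n2 ∨ k2 = -n2) ∧
    MT (Gam k0 k1 k2) k0 k1 k2 z x x' ∧ Gam k0 k1 k2 = Gam n0 n1 n2

/-- the angles are rational -/
def T_MTA : Prop := ∀ G x y z P Q R, Proper G → MT G x y z P Q R → ∃ u : ℚ, 0 < u ∧ u < 1 ∧ mk x y = cn u

/-- a mirror through a vertex splits the triangle -/
def T_MTS : Prop := ∀ G x y z P Q R, MT G x y z P Q R → ∀ k N : ℕ, 2 ≤ k → k < N → Nat.Coprime k N →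
  mk x y = Real.cos (k * Real.pi / N) → ∃ (t : V4) (S : H3) (s r : ℝ), 0 < s ∧ 0 < r ∧ S.1 = s • Q.1 + r • R.1 ∧
    mk x t = Real.cos (Real.pi / N) ∧ mk (-t) y = Real.cos (((k : ℝ) - 1) * Real.pi / N) ∧
    Real.sin (Real.pi / N) * mk z y = Real.sin (k * Real.pi / N) * mk z t +
      Real.sin (((k : ℝ) - 1) * Real.pi / N) * mk z x ∧ mk Q.1 t < 0 ∧ 0 < mk R.1 t ∧
    MT G x t z P Q S ∧ MT G (-t) y z P S R

/-- mirrors which separate two of the three points -/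
def Cr (G : Submonoid (Module.End ℝ V4)) (P Q R : H3) : Set (Module.End ℝ V4) :=
  {g | g ∈ G ∧ ∃ n : V4, mk n n = -1 ∧ g = refl n ∧
    ∃ A ∈ ({P, Q, R} : Set H3), ∃ B ∈ ({P, Q, R} : Set H3), mk A.1 n < 0 ∧ 0 < mk B.1 n}

def T_CRN : Prop := ∀ G P Q R, Proper G → (Cr G P Q R).Finite

def T_CRD : Prop := ∀ (G : Submonoid (Module.End ℝ V4)) (P Q R S : H3) (t : V4) (s r : ℝ), mk t t = -1 →
  refl t ∈ G → 0 < s → 0 < r → S.1 = s • Q.1 + r • R.1 → mk P.1 t = 0 → mk S.1 t = 0 → mk Q.1 t < 0 →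
  0 < mk R.1 t → Cr G P Q S ⊂ Cr G P Q R ∧ Cr G P S R ⊂ Cr G P Q R

/-- the triangle is not spherical -/
def T_KAP : Prop := ∀ G x y z P Q R, MT G x y z P Q R → ∀ a b c : ℝ, 0 < a → a < Real.pi → 0 < b → b < Real.pi →
  mk x y = Real.cos a → mk x z = Real.cos b → mk y z = Real.cos c →
  Real.sin a * Real.sin b ≤ Real.cos c + Real.cos a * Real.cos b

def T_TRI : Prop := ∀ a b c : ℝ, 0 < a → a < Real.pi → 0 < b → b < Real.pi → 0 < c → c < Real.pi →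
  Real.sin a * Real.sin b ≤ Real.cos c + Real.cos a * Real.cos b →
  Real.sin b * Real.sin c ≤ Real.cos a + Real.cos b * Real.cos c →
  Real.sin a * Real.sin c ≤ Real.cos b + Real.cos a * Real.cos c → a + b + c ≤ Real.pi

/-! ## The list of the triangles -/

/-- ordered triples -/
def KnO (u v w : ℚ) : Prop :=
  (∃ a b c : ℕ, 2 ≤ a ∧ 2 ≤ b ∧ 2 ≤ c ∧ u = 1 / a ∧ v = 1 / b ∧ w = 1 / c) ∨
  (∃ p c : ℕ, Odd p ∧ 3 ≤ p ∧ 2 ≤ c ∧ u = 2 / p ∧ v = 1 / c ∧ w = 1 / c) ∨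
  (∃ p : ℕ, Odd p ∧ 7 ≤ p ∧ u = 1 / 2 ∧ v = 1 / p ∧ w = 2 / p) ∨
  (∃ p : ℕ, ¬ 3 ∣ p ∧ 7 ≤ p ∧ u = 1 / 3 ∧ v = 1 / p ∧ w = 3 / p) ∨
  (∃ p : ℕ, Odd p ∧ 7 ≤ p ∧ u = 4 / p ∧ v = 1 / p ∧ w = 1 / p) ∨
  (∃ p : ℕ, Odd p ∧ 7 ≤ p ∧ u = 2 / p ∧ v = 2 / p ∧ w = 2 / p) ∨
  (u = 1 / 3 ∧ v = 1 / 7 ∧ w = 2 / 7)

/-- the angles (divided by `π`) of the triangles -/
def Kn (u v w : ℚ) : Prop :=
  u + v + w ≤ 1 ∧ (KnO u v w ∨ KnO u w v ∨ KnO v u w ∨ KnO v w u ∨ KnO w u v ∨ KnO w v u)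

def T_KNS : Prop := ∀ u v w, Kn u v w → Kn v u w ∧ Kn u w v

/-- the angles which occur -/
def T_KNL : Prop := ∀ u v w, Kn u v w → 0 < w ∧ w < 1 ∧ ((∃ n : ℕ, 2 ≤ n ∧ w = 1 / n) ∨
  (∃ p : ℕ, Odd p ∧ 3 ≤ p ∧ w = 2 / p) ∨ (∃ p : ℕ, ¬ 3 ∣ p ∧ 7 ≤ p ∧ w = 3 / p) ∨ (∃ p : ℕ, Odd p ∧ 7 ≤ p ∧ w = 4 / p))

/-- supplementary angles -/
def T_KNV : Prop := ∀ u v u' v' f : ℚ, Kn u v f → Kn u' v' (1 - f) →
  f = 1 / 2 ∨ f = 2 / 3 ∨ f = 1 / 3 ∨ f = 4 / 7 ∨ f = 3 / 7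

def T_KN2 : Prop := ∀ u v, Kn u v (1 / 2) → (∃ a b : ℕ, 3 ≤ a ∧ 3 ≤ b ∧ u = 1 / a ∧ v = 1 / b) ∨
  ∃ p : ℕ, Odd p ∧ 7 ≤ p ∧ ((u = 1 / p ∧ v = 2 / p) ∨ (u = 2 / p ∧ v = 1 / p))
def T_KN3 : Prop := ∀ u v, Kn u v (2 / 3) → u = v ∧ ∃ c : ℕ, 6 ≤ c ∧ u = 1 / c
def T_KN7 : Prop := (∀ u v, Kn u v (4 / 7) → u = 1 / 7 ∧ v = 1 / 7) ∧
  ∀ u v, Kn u v (3 / 7) → (u = 1 / 3 ∧ v = 1 / 7) ∨ (u = 1 / 7 ∧ v = 1 / 3)
/-- angles of the triangles with an angle `π / 3` are not obtuse -/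
def T_KNT : Prop := ∀ u v, Kn u v (1 / 3) → u ≤ 1 / 2

/-- the two parts of a triangle, angle `f` at the foot of the splitting mirror -/
def KS (f : ℚ) : Prop := ∀ (q k : ℕ) (u v : ℚ), 2 ≤ k → k < q → Nat.Coprime k q → Kn (1 / q) u f →
  Kn ((k - 1) / q) v (1 - f) → k / q + u + v ≤ 1 → cn v * Real.sin (Real.pi / q) =
    Real.sin (k * Real.pi / q) * cn f + Real.sin (((k : ℝ) - 1) * Real.pi / q) * cn u → Kn (k / q) u v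
def T_KS2 : Prop := KS (1 / 2)
def T_KS3 : Prop := KS (2 / 3)
def T_KS4 : Prop := KS (1 / 3)
def T_KS5 : Prop := KS (4 / 7) ∧ KS (3 / 7)

/-- THE CLASSIFICATION of the triangles -/
def T_KNP : Prop := ∀ G x y z P Q R, Proper G → MT G x y z P Q R → ∀ u v w : ℚ, 0 < u → u < 1 → 0 < v → v < 1 →
  0 < w → w < 1 → mk x y = cn u → mk x z = cn v → mk y z = cn w → Kn u v w

/-- two odd denominators -/
def T_ODN : Prop := ∀ u v w, Kn u v w → Odd u.den → Odd v.den →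
  (Fam0 u v w ∨ Fam1 u v w ∨ Fam2 u v w) ∨ (Fam0 v u w ∨ Fam1 v u w ∨ Fam2 v u w)

/-! ## Configurations -/

/-- base points and normals -/
structure Cf (u v w : ℚ) (x x' : H3) (n0 n1 n2 : V4) : Prop where
  u0 : mk n0 n0 = -1
  u1 : mk n1 n1 = -1
  u2 : mk n2 n2 = -1
  e02 : mk n0 n2 = cn u
  e12 : mk n1 n2 = cn v
  e01 : mk n0 n1 = cn w
  xa : mk x.1 n0 = 0
  xc : mk x.1 n2 = 0
  yb : mk x'.1 n1 = 0
  yc : mk x'.1 n2 = 0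
  xb : mk x.1 n1 < 0
  ya : mk x'.1 n0 < 0

/-- the difference of the base points is in the span of the normals -/
def InS (x x' : H3) (n0 n1 n2 : V4) : Prop := ∃ r s t : ℝ, x.1 - x'.1 = r • n0 + s • n1 + t • n2

/-- no common point of the three mirrors -/
def NoO (n0 n1 n2 : V4) : Prop := ¬ ∃ O : H3, mk O.1 n0 = 0 ∧ mk O.1 n1 = 0 ∧ mk O.1 n2 = 0

/-- independence -/
def T_LIP : Prop := ∀ X l m n : V4, mk l l = -1 → mk m m = -1 → (mk l m) ^ 2 < 1 → mk X l = 0 → mk X m = 0 →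
  mk X n ≠ 0 → LinearIndependent ℝ ![l, m, n]
def T_CFI : Prop := ∀ u v w x x' n0 n1 n2, Cf u v w x x' n0 n1 n2 → LinearIndependent ℝ ![n0, n1, n2] ∧ x ≠ x' ∧
  Cf v u w x' x n1 n0 n2 ∧ (InS x x' n0 n1 n2 ↔ InS x' x n1 n0 n2) ∧ (NoO n0 n1 n2 ↔ NoO n1 n0 n2)

def T_NSK : Prop := ∀ u v w x x' n0 n1 n2, Cf u v w x x' n0 n1 n2 → 0 < u → 0 < v → 0 < w → u + v + w ≤ 1 →
  NoO n0 n1 n2

/-- order of the product of two reflections -/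
def T_OR3 : Prop := ∀ (x y : V4) (u : ℚ), mk x x = -1 → mk y y = -1 → 0 < u → u < 1 → mk x y = cn u →
  ∀ m : ℕ, (refl x * refl y) ^ m = 1 ↔ u.den ∣ m

/-- elementary facts about the families -/
def T_FMB : Prop := ∀ u v w, Fam0 u v w ∨ Fam1 u v w ∨ Fam2 u v w → 0 < u ∧ 0 < v ∧ 0 < w ∧ Odd u.den ∧ Odd v.den ∧
  cn u ≠ 0 ∧ cn v ≠ 0 ∧ (Fam0 u v w ∨ Fam1 u v w → u ≠ v) ∧ (Fam2 u v w → u = v)

/-- the mirrors of a dihedral group -/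
def T_YK : Prop := ∀ (m n : V4) (θ : ℝ), mk m m = -1 → mk n n = -1 → mk m n = Real.cos θ → Real.sin θ ≠ 0 →
  ∀ (j : ℕ) (y : V4), Real.sin θ • y = Real.sin (j * θ) • m + Real.sin (((j : ℝ) - 1) * θ) • n →
    mk y y = -1 ∧ refl y ∈ Submonoid.closure {(refl m : Module.End ℝ V4), refl n}

/-- `cos (π / 7)` -/
def T_C7 : Prop := ∃ c : ℝ, Real.cos (Real.pi / 7) = c ∧ 8 * c ^ 3 - 4 * c ^ 2 - 4 * c + 1 = 0 ∧
  (9 : ℝ) / 10 < c ∧ c < 91 / 100 ∧ cn (1 / 7) = c ∧ cn (2 / 7) = 2 * c ^ 2 - 1 ∧ cn (3 / 7) = 4 * c ^ 3 - 3 * c ∧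
  cn (4 / 7) = -(4 * c ^ 3 - 3 * c)

/-! ## Necessity: the conditions on the base points -/

/-- two points of the intersection of two mirrors -/
def T_LNE : Prop := ∀ (y y' : H3) (n0 n1 n2 : V4), NoO n0 n1 n2 → mk y.1 n1 = 0 → mk y.1 n2 = 0 → mk y'.1 n1 = 0 →
  mk y'.1 n2 = 0 → mk n1 n1 = -1 → mk n2 n2 = -1 → (mk n1 n2) ^ 2 < 1 → InS y y' n0 n1 n2 → y = y'

/-- isosceles triangles -/
def T_ISO : Prop := ∀ (x x' : H3) (n0 n1 n2 : V4) (c : ℝ), NoO n0 n1 n2 → mk n0 n0 = -1 → mk n1 n1 = -1 →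
  mk n2 n2 = -1 → mk n0 n2 = mk n1 n2 → (mk n1 n2) ^ 2 < 1 → mk x.1 n0 = 0 → mk x.1 n2 = 0 → mk x'.1 n1 = 0 →
  mk x'.1 n2 = 0 → InS x x' n0 n1 n2 → mk (c • (n0 - n1)) (c • (n0 - n1)) = -1 →
  refl (c • (n0 - n1)) x.1 = x'.1

/-- another mirror through the first base point -/
structure St (k q : ℕ) (v w : ℚ) (x x' : H3) (n0 n1 n2 m : V4) : Prop where
  um : mk m m = -1
  em : mk m n2 = Real.cos (Real.pi / q)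
  xm : mk x.1 m = 0
  ym : mk x'.1 m < 0
  gm : refl m ∈ Submonoid.closure {(refl n0 : Module.End ℝ V4), refl n2}
  g0 : refl n0 ∈ Submonoid.closure {(refl m : Module.End ℝ V4), refl n2}
  eq : Real.sin (k * Real.pi / q) * mk m n1 =
    Real.sin (Real.pi / q) * cn w - Real.sin (((k : ℝ) - 1) * Real.pi / q) * cn v
  sp : ∀ y : V4, mk y n0 = 0 → mk y n2 = 0 → mk y m = 0
  sp' : ∀ y : V4, mk y m = 0 → mk y n2 = 0 → mk y n0 = 0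
  is : InS x x' n0 n1 n2 ↔ InS x x' m n1 n2

def T_STM : Prop := ∀ (k q : ℕ) (v w : ℚ) x x' n0 n1 n2, 2 ≤ k → k < q → Nat.Coprime k q →
  Cf (k / q) v w x x' n0 n1 n2 → ∃ m, St k q v w x x' n0 n1 n2 m

/-- the base points are equivalent if their difference is in the span -/
def EX (u v w : ℚ) : Prop := ∀ x x' n0 n1 n2, Cf u v w x x' n0 n1 n2 → NoO n0 n1 n2 → InS x x' n0 n1 n2 →
  ∃ g ∈ Gam n0 n1 n2, g x.1 = x'.1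
def T_EXE : Prop := ∀ p : ℕ, Odd p → 7 ≤ p →
  EX (2 / p) (1 / p) (1 / 2) ∧ EX (4 / p) (1 / p) (1 / p) ∧ (¬ 3 ∣ p → EX (3 / p) (1 / p) (1 / 3))
def T_EXF : Prop := EX (2 / 7) (1 / 7) (1 / 3)

/-! ## The model -/

def T_MDQ : Prop := ∀ (u v w : ℚ) (α β : ℝ), 0 < u → u < 1 → 0 < v → v < 1 → 0 < α → α < Real.pi → 0 < β →
  β < Real.pi → 1 < eL u v w α β → Cf u v w o (x1 u v w α β) (na u α) (nb u v w α β) m1 ∧
    ch o (x1 u v w α β) = eL u v w α β ∧ 0 < eS u v w α β ∧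
    mk o.1 (nb u v w α β) = -(sn v * Real.sin β * eS u v w α β) ∧
    mk (x1 u v w α β).1 (na u α) = -(sn u * Real.sin α * eS u v w α β) ∧
    (InS o (x1 u v w α β) (na u α) (nb u v w α β) m1 ↔ α = β)

def T_GEL : Prop := ∀ u v w α β, Prm u v w α β → 0 < u ∧ u < 1 ∧ 0 < v ∧ v < 1 ∧ 0 < w ∧ w < 1 ∧ 1 < eL u v w α β

/-- a frame -/
def T_FRM : Prop := ∀ (x x' : H3) (n : V4), mk n n = -1 → mk x.1 n = 0 → mk x'.1 n = 0 → x ≠ x' →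
  ∃ (g : Equiv.Perm H3) (G : V4 →ₗ[ℝ] V4), IsIso g ∧ Ext G g ∧ Lor G ∧ g o = x ∧
    g (pt 0 0 (Real.sqrt (ch x x' ^ 2 - 1))) = x' ∧ G m1 = n

/-- every configuration is the image of a model -/
def T_MDR : Prop := ∀ u v w x x' n0 n1 n2, 0 < u → u < 1 → 0 < v → v < 1 → Cf u v w x x' n0 n1 n2 →
  ∃ (α β : ℝ) (g : Equiv.Perm H3) (G : V4 →ₗ[ℝ] V4), 0 < α ∧ α < Real.pi ∧ 0 < β ∧ β < Real.pi ∧
    1 < eL u v w α β ∧ IsIso g ∧ Ext G g ∧ Lor G ∧ g o = x ∧ g (x1 u v w α β) = x' ∧ G (na u α) = n0 ∧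
    G (nb u v w α β) = n1 ∧ G m1 = n2

/-- image of a polyhedron -/
def T_CJA : Prop := ∀ (g : Equiv.Perm H3) (G : V4 →ₗ[ℝ] V4) (x x' : H3) (n0 n1 n2 : V4), IsIso g → Ext G g →
  Lor G → mk n0 n0 = -1 → mk n1 n1 = -1 → mk n2 n2 = -1 →
  mapG g (KA x x' (rf n0) (rf n1) (rf n2)) = KA (g x) (g x') (rf (G n0)) (rf (G n1)) (rf (G n2))

/-- exchange of the base points -/
def T_KSW : Prop := ∀ (v v' : H3) (a b c : Equiv.Perm H3), KA v v' a b c = KA v' v b a c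

/-- isometries which preserve the polyhedron -/
def T_SYW : Prop := ∀ (K : Geo) (g : Equiv.Perm H3), IsIso g → mapG g K = K → Sy K g

/-- the group acts by symmetries -/
def T_KSY : Prop := ∀ (v v' : H3) (a b c : Equiv.Perm H3), IsIso a → IsIso b → IsIso c → ∀ g ∈ G3 a b c,
  Sy (KA v v' a b c) g

/-- conjugate symmetries -/
def T_SYC : Prop := ∀ (K : Geo) (g h : Equiv.Perm H3), Sy K g → IsIso h → Sy (mapG h K) (h * g * h⁻¹)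

/-- the reflection of the model -/
def T_MIM : Prop := ∀ (u v w : ℚ) (α β : ℝ), ∃ (g : Equiv.Perm H3) (G : V4 →ₗ[ℝ] V4), IsIso g ∧ Ext G g ∧ Lor G ∧
  g o = o ∧ g (x1 u v w α β) = x1 u v w (Real.pi - α) (Real.pi - β) ∧ G (na u α) = na u (Real.pi - α) ∧
  G (nb u v w α β) = nb u v w (Real.pi - α) (Real.pi - β) ∧ G m1 = m1

/-- the exchange of the base points of the model -/
def T_SWM : Prop := ∀ (u v w : ℚ) (α β : ℝ), 1 < eL u v w α β → ∃ (g : Equiv.Perm H3) (G : V4 →ₗ[ℝ] V4), IsIso g ∧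
  Ext G g ∧ Lor G ∧ g o = x1 v u w β α ∧ g (x1 u v w α β) = o ∧ G (na u α) = nb v u w β α ∧
  G (nb u v w α β) = na v β ∧ G m1 = m1

/-- congruent models -/
def T_SME : Prop := ∀ u v w α β u' v' w' α' β', 1 < eL u v w α β → Same u v w α β u' v' w' α' β' →
  Cong (ModD u v w α β) (ModD u' v' w' α' β')

/-- too many symmetries -/
def T_FM2 : Prop := ∀ (u w : ℚ) (α β : ℝ), 1 < eL u u w α β → (α = β ∨ α + β = Real.pi) →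
  ∃ g, Sy (ModD u u w α β) g ∧ g o = x1 u u w α β

/-! ## Existence -/

/-- the vertex stabilizers, the orbits are different and discrete -/
structure VS (Γ S S' : Submonoid (Module.End ℝ V4)) (x x' : H3) : Prop where
  st : ∀ g ∈ Γ, g x.1 = x.1 → g ∈ S
  st' : ∀ g ∈ Γ, g x'.1 = x'.1 → g ∈ S'
  ne : ∀ g ∈ Γ, g x.1 ≠ x'.1
  di : ∃ ε : ℝ, 0 < ε ∧ ∀ g ∈ Γ, (g x.1 ≠ x.1 → 1 + ε ≤ mk x.1 (g x.1)) ∧
    (g x'.1 ≠ x'.1 → 1 + ε ≤ mk x'.1 (g x'.1)) ∧ 1 + ε ≤ mk x.1 (g x'.1)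

/-- the group of two reflections -/
abbrev C2 (m n : V4) : Submonoid (Module.End ℝ V4) := Submonoid.closure {refl m, refl n}

/-- base points in a Coxeter chamber -/
def T_CHV : Prop := ∀ M al, Nrm M al → ∀ (x x' : H3) (i j k i' j' k' : Fin 3), i ≠ j → i ≠ k → j ≠ k → i' ≠ j' →
  i' ≠ k' → j' ≠ k' → M i j ≠ 0 → M i' j' ≠ 0 → mk x.1 (al i) = 0 → mk x.1 (al j) = 0 → mk x.1 (al k) < 0 →
  mk x'.1 (al i') = 0 → mk x'.1 (al j') = 0 → mk x'.1 (al k') < 0 → x ≠ x' →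
  VS (Gam (al 0) (al 1) (al 2)) (C2 (al i) (al j)) (C2 (al i') (al j')) x x'

/-- elementary changes -/
def T_VSR : Prop :=
  (∀ Γ Δ S S' x x', Δ ≤ Γ → VS Γ S S' x x' → VS Δ S S' x x') ∧
  (∀ Γ S S' x x', (∀ g ∈ Γ, ∃ h ∈ Γ, h * g = 1 ∧ g * h = 1 ∧ Lor g ∧ Lor h) → VS Γ S S' x x' → VS Γ S' S x' x) ∧
  (∀ (Γ S : Submonoid (Module.End ℝ V4)) (m n r : V4) (x y x' : H3), mk r r = -1 → refl r ∈ Γ → x'.1 = refl r y.1 →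
    VS Γ S (C2 m n) x y → VS Γ S (C2 (refl r m) (refl r n)) x x') ∧
  (∀ m n : V4, C2 m n = C2 n m ∧ C2 (-m) n = C2 m n)

/-- the condition for a configuration -/
def XV (x x' : H3) (n0 n1 n2 : V4) : Prop := VS (Gam n0 n1 n2) (C2 n0 n2) (C2 n1 n2) x x'

/-- exchange -/
def T_XVS : Prop := ∀ u v w x x' n0 n1 n2, Cf u v w x x' n0 n1 n2 → (XV x x' n0 n1 n2 ↔ XV x' x n1 n0 n2)

def T_VSA : Prop := ∀ u v w x x' n0 n1 n2, Cf u v w x x' n0 n1 n2 → cn u ≠ 0 → XV x x' n0 n1 n2 →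
  AStr x x' (rf n0) (rf n1) (rf n2)

/-- normals for given angles -/
def T_NR3 : Prop := ∀ (p q r : ℕ) (l m n : V4), 2 ≤ p → 2 ≤ q → 2 ≤ r → mk l l = -1 → mk m m = -1 → mk n n = -1 →
  mk l m = Real.cos (Real.pi / p) → mk l n = Real.cos (Real.pi / q) → mk m n = Real.cos (Real.pi / r) →
  LinearIndependent ℝ ![l, m, n] → ∃ M : CoxeterMatrix (Fin 3), Nrm M ![l, m, n] ∧ M 0 1 = p ∧ M 0 2 = q ∧ M 1 2 = r

/-- chambers -/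
def T_XL1 : Prop := ∀ (q q' m : ℕ) x x' n0 n1 n2, 2 ≤ q → 2 ≤ q' → 2 ≤ m → Cf (1 / q) (1 / q') (1 / m) x x' n0 n1 n2 →
  XV x x' n0 n1 n2
def T_XC2 : Prop := ∀ (q p : ℕ) x x' n0 n1 n2, 2 ≤ q → 3 ≤ p → Cf (1 / q) (1 / q) (2 / p) x x' n0 n1 n2 →
  ¬ InS x x' n0 n1 n2 → XV x x' n0 n1 n2
def T_XC3 : Prop := ∀ (p : ℕ) x x' n0 n1 n2, 7 ≤ p → Cf (1 / p) (1 / p) (4 / p) x x' n0 n1 n2 →
  ¬ InS x x' n0 n1 n2 → XV x x' n0 n1 n2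
def T_XA4 : Prop := ∀ (p : ℕ) x x' n0 n1 n2, 7 ≤ p → Cf (1 / 3) (1 / p) (3 / p) x x' n0 n1 n2 →
  XV x x' n0 n1 n2
def T_XA6 : Prop := ∀ x x' n0 n1 n2, Cf (1 / 3) (1 / 7) (2 / 7) x x' n0 n1 n2 → XV x x' n0 n1 n2

/-- change of the mirror -/
def T_XST : Prop := ∀ (k q : ℕ) (v w : ℚ) x x' n0 n1 n2 m, Cf (k / q) v w x x' n0 n1 n2 →
  St k q v w x x' n0 n1 n2 m → XV x x' m n1 n2 → XV x x' n0 n1 n2

def T_XF1 : Prop := ∀ p : ℕ, Odd p →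
  (∀ (c : ℕ) x x' n0 n1 n2, 3 ≤ p → 2 ≤ c → Cf (2 / p) (1 / c) (1 / c) x x' n0 n1 n2 → XV x x' n0 n1 n2) ∧
  ∀ x x' n0 n1 n2, 7 ≤ p → ¬ 3 ∣ p → Cf (3 / p) (1 / 3) (1 / p) x x' n0 n1 n2 → XV x x' n0 n1 n2
def T_XF2 : Prop := ∀ p : ℕ, Odd p → 7 ≤ p → ∀ x x' n0 n1 n2, ¬ InS x x' n0 n1 n2 →
  (Cf (2 / p) (1 / p) (1 / 2) x x' n0 n1 n2 → XV x x' n0 n1 n2) ∧
  (Cf (4 / p) (1 / p) (1 / p) x x' n0 n1 n2 → XV x x' n0 n1 n2) ∧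
  (¬ 3 ∣ p → Cf (3 / p) (1 / p) (1 / 3) x x' n0 n1 n2 → XV x x' n0 n1 n2)
def T_XF3 : Prop := ∀ p : ℕ, Odd p → 7 ≤ p → ∀ x x' n0 n1 n2, ¬ InS x x' n0 n1 n2 →
  Cf (2 / p) (2 / p) (2 / p) x x' n0 n1 n2 → XV x x' n0 n1 n2
def T_XF4 : Prop := ∀ x x' n0 n1 n2, (Cf (2 / 7) (1 / 3) (1 / 7) x x' n0 n1 n2 → XV x x' n0 n1 n2) ∧
  (¬ InS x x' n0 n1 n2 → Cf (2 / 7) (1 / 7) (1 / 3) x x' n0 n1 n2 → XV x x' n0 n1 n2)

/-- ALL FAMILIES -/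
def T_EXA : Prop := ∀ u v w x x' n0 n1 n2, Cf u v w x x' n0 n1 n2 →
  (Fam0 u v w ∨ (Fam1 u v w ∧ ¬ InS x x' n0 n1 n2) ∨ (Fam2 u v w ∧ ¬ InS x x' n0 n1 n2)) → XV x x' n0 n1 n2

/-! ## The polyhedra -/

/-- two orbits -/
def T_AEG : Prop := ∀ v v' a b c, AStr v v' a b c →
  (ch v' (a v') ≠ ch v (b v) ∨ ch (a v') (c (a v')) ≠ ch (b v) (c (b v))) → Two (KA v v' a b c)

/-- distances -/
def T_CHA : Prop := ∀ u v w x x' n0 n1 n2, Cf u v w x x' n0 n1 n2 →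
  ch x' (rf n0 x') = 1 + 2 * (mk x'.1 n0) ^ 2 ∧ ch x (rf n1 x) = 1 + 2 * (mk x.1 n1) ^ 2 ∧
  ch (rf n0 x') (rf n2 (rf n0 x')) = 1 + 8 * (mk x'.1 n0) ^ 2 * (cn u) ^ 2 ∧
  ch (rf n1 x) (rf n2 (rf n1 x)) = 1 + 8 * (mk x.1 n1) ^ 2 * (cn v) ^ 2 ∧
  ch (rf n0 x') (rf n1 x) = ch x x' + 4 * mk x.1 n1 * mk x'.1 n0 * cn w ∧
  ch (rf n2 (rf n0 x')) (rf n1 x) = ch x x' + 4 * mk x.1 n1 * mk x'.1 n0 * (cn w + 2 * cn u * cn v)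

/-- sizes -/
def T_ORA : Prop := ∀ u v w x x' n0 n1 n2, Cf u v w x x' n0 n1 n2 → 0 < u → u < 1 → 0 < v → v < 1 → 0 < w → w < 1 →
  AStr x x' (rf n0) (rf n1) (rf n2) → FS (KA x x' (rf n0) (rf n1) (rf n2)) = {2 * (w.den : ℕ∞)} ∧
    DG (KA x x' (rf n0) (rf n1) (rf n2)) = {(u.den : ℕ∞), (v.den : ℕ∞)}

/-- infinitely many vertices -/
def T_VIN : Prop := ∀ (x x' : H3) (n0 n1 n2 : V4), mk n0 n0 = -1 → mk n1 n1 = -1 → mk n2 n2 = -1 →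
  NoO n0 n1 n2 → (KA x x' (rf n0) (rf n1) (rf n2)).V.Infinite

/-- a structure for the parameters -/
def T_PAS : Prop := ∀ u v w α β, Prm u v w α β →
  AStr o (x1 u v w α β) (rf (na u α)) (rf (nb u v w α β)) (rf m1)

/-- two orbits for the parameters -/
def T_PTW : Prop := ∀ u v w α β, Prm u v w α β → Two (ModD u v w α β)

def T_PO1 : Prop := ∀ u v w α β, Prm u v w α β → Odd1 (ModD u v w α β)

/-! ## Uniqueness -/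

def T_CGF : Prop := ∀ v v' a b c w w' a' b' c', AStr v v' a b c → AStr w w' a' b' c' →
  Cong (KA v v' a b c) (KA w w' a' b' c') → ∃ g : Equiv.Perm H3, IsIso g ∧
    ((g v = w ∧ g v' = w' ∧ ∀ y ∈ (KA v v' a b c).V, g (a y) = a' (g y) ∧ g (b y) = b' (g y) ∧ g (c y) = c' (g y)) ∨
    (g v = w' ∧ g v' = w ∧ ∀ y ∈ (KA v v' a b c).V, g (a y) = b' (g y) ∧ g (b y) = a' (g y) ∧ g (c y) = c' (g y)))

/-- equal numbers -/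
structure Nm (u v w : ℚ) (x x' : H3) (n0 n1 : V4) (u' v' w' : ℚ) (y y' : H3) (p0 p1 : V4) : Prop where
  l : ch x x' = ch y y'
  a : mk x'.1 n0 = mk y'.1 p0
  b : mk x.1 n1 = mk y.1 p1
  eu : (cn u) ^ 2 = (cn u') ^ 2
  ev : (cn v) ^ 2 = (cn v') ^ 2
  ew : cn w = cn w'
  uv : cn u * cn v = cn u' * cn v'

def T_UNA : Prop := ∀ u v w x x' n0 n1 n2 u' v' w' y y' p0 p1 p2, Cf u v w x x' n0 n1 n2 →
  Cf u' v' w' y y' p0 p1 p2 → AStr x x' (rf n0) (rf n1) (rf n2) → AStr y y' (rf p0) (rf p1) (rf p2) →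
  Cong (KA x x' (rf n0) (rf n1) (rf n2)) (KA y y' (rf p0) (rf p1) (rf p2)) →
  Nm u v w x x' n0 n1 u' v' w' y y' p0 p1 ∨ Nm u v w x x' n0 n1 v' u' w' y' y p1 p0

def T_UNB : Prop := ∀ u v w u' v' w' : ℚ, 0 < u → 0 < v → 0 < w → u + v + w ≤ 1 → 0 < u' → 0 < v' → 0 < w' →
  u' + v' + w' ≤ 1 → (cn u) ^ 2 = (cn u') ^ 2 → (cn v) ^ 2 = (cn v') ^ 2 → cn w = cn w' →
  cn u * cn v = cn u' * cn v' → u' = u ∧ v' = v ∧ w' = w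

def T_UNC : Prop := ∀ α β α' β' : ℝ, 0 < α → α < Real.pi → 0 < β → β < Real.pi → 0 < α' → α' < Real.pi → 0 < β' →
  β' < Real.pi → Real.sin α = Real.sin α' → Real.sin β = Real.sin β' →
  Real.cos α * Real.cos β = Real.cos α' * Real.cos β' →
  (α' = α ∧ β' = β) ∨ (α' = Real.pi - α ∧ β' = Real.pi - β)

def T_UNQ : Prop := ∀ u v w α β u' v' w' α' β', Prm u v w α β → Prm u' v' w' α' β' →
  Cong (ModD u v w α β) (ModD u' v' w' α' β') → Same u v w α β u' v' w' α' β'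

/-! ## Necessity -/

/-- the configuration of a polyhedron -/
def T_NC1 : Prop := ∀ K : Geo, Odd1 K → ∃ u v w x x' n0 n1 n2, Cf u v w x x' n0 n1 n2 ∧
  K = KA x x' (rf n0) (rf n1) (rf n2) ∧ 0 < u ∧ u < 1 ∧ 0 < v ∧ v < 1 ∧ 0 < w ∧ w < 1 ∧ u + v + w ≤ 1 ∧
  (Fam0 u v w ∨ Fam1 u v w ∨ Fam2 u v w) ∧ NoO n0 n1 n2 ∧ ¬ ∃ g, Sy K g ∧ g x = x'

def T_NC2 : Prop := ∀ K : Geo, Odd1 K → ∃ u v w α β, Prm u v w α β ∧ Cong (ModD u v w α β) K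

/-- images of polyhedra -/
def T_CG1 : Prop := ∀ K K' : Geo, OddDeg K → Cong K K' → OddDeg K'

def T_MND : Prop := MainDeg

end Pool.Agent.H50.ODG
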